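import Pool.Agent.Helper78.AO.Goals

/-! # From lists of literals to decision lists -/

namespace Pool.Agent.Helper81.AO

open Pool.Agent.Helper78.AO Pool.Agent.Helper78.DT
open scoped Classical

/-- The list of literals can be true. -/
def Gd (m : ℕ) (l : List (ℕ × Bool)) : Prop := ∃ b : Fin m → Bool, Tru (cf b) l

/-- The term of a list of literals. -/
noncomputable def trm (m : ℕ) (l : List (ℕ × Bool)) : Tm (Fin m) :=
  Finset.univ.filter fun q : Fin m × Bool => ((q.1 : ℕ), q.2) ∈ l

theorem mem_trm {m : ℕ} {l : List (ℕ × Bool)} {q : Fin m × Bool} :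
    q ∈ trm m l ↔ ((q.1 : ℕ), q.2) ∈ l := by
  simp [trm]

theorem cf_val {m : ℕ} (b : Fin m → Bool) (v : Fin m) : cf b (v : ℕ) = b v := by
  simp [cf]

theorem sat_trm {m : ℕ} {l : List (ℕ × Bool)} (hl : Gd m l) (b : Fin m → Bool) :
    Sat (trm m l) b ↔ Tru (cf b) l := by
  obtain ⟨b0, hb0⟩ := hl
  constructor
  · intro hs p hp
    by_cases hm : p.1 < m
    · have h1 : ((⟨p.1, hm⟩ : Fin m), p.2) ∈ trm m l := by
        rw [mem_trm]; exact hp
      have h2 := hs _ h1
      simpa [cf, hm] using h2
    · have h1 := hb0 p hp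
      have h2 : cf b0 p.1 = false := by simp [cf, hm]
      have h3 : cf b p.1 = false := by simp [cf, hm]
      rw [h3, ← h2, h1]
  · intro ht q hq
    have h1 := ht _ (mem_trm.1 hq)
    simpa [cf_val] using h1

theorem card_trm {m : ℕ} (l : List (ℕ × Bool)) : (trm m l).card ≤ l.length := by
  have hinj : Function.Injective (fun q : Fin m × Bool => ((q.1 : ℕ), q.2)) := by
    rintro ⟨a, a'⟩ ⟨c, c'⟩ h
    simp only [Prod.mk.injEq] at h
    exact Prod.ext (Fin.ext h.1) h.2
  calc (trm m l).card = ((trm m l).image fun q : Fin m × Bool => ((q.1 : ℕ), q.2)).card :=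
        (Finset.card_image_of_injective _ hinj).symm
    _ ≤ l.toFinset.card := by
        apply Finset.card_le_card
        intro p hp
        rw [Finset.mem_image] at hp
        obtain ⟨q, hq, rfl⟩ := hp
        rw [List.mem_toFinset]
        exact mem_trm.1 hq
    _ ≤ l.length := List.toFinset_card_le l

theorem part_card (A : Machine) (x : List Bool) {l : List (ℕ × Bool)} (hl : Gd (A.m x) l)
    (h : ℕ → ℕ) (j : ℕ) :
    ((trm (A.m x) l).filter fun p => h p.1 = j).card =
      ((nms A x l).filter fun v => decide (h v = j)).length := by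
  have hnd : ((nms A x l).filter fun v => decide (h v = j)).Nodup :=
    (List.nodup_dedup _).filter _
  rw [← List.toFinset_card_of_nodup hnd]
  refine Finset.card_bij (fun q _ => (q.1 : ℕ)) ?_ ?_ ?_
  · intro q hq
    rw [Finset.mem_filter, mem_trm] at hq
    rw [List.mem_toFinset, List.mem_filter]
    refine ⟨?_, by simpa using hq.2⟩
    unfold nms
    rw [List.mem_dedup, List.mem_filter, List.mem_map]
    exact ⟨⟨_, hq.1, rfl⟩, by simp⟩
  · intro q hq q' hq' he
    rw [Finset.mem_filter, mem_trm] at hq hq'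
    obtain ⟨b0, hb0⟩ := hl
    have h1 := hb0 _ hq.1
    have h2 := hb0 _ hq'.1
    simp only at h1 h2 he
    rw [he] at h1
    exact Prod.ext (Fin.ext he) (h1.symm.trans h2)
  · intro v hv
    rw [List.mem_toFinset, List.mem_filter] at hv
    obtain ⟨hv1, hv2⟩ := hv
    unfold nms at hv1
    rw [List.mem_dedup, List.mem_filter, List.mem_map] at hv1
    obtain ⟨⟨p, hp, rfl⟩, hlt⟩ := hv1
    have hlt' : p.1 < A.m x := by simpa using hlt
    refine ⟨(⟨p.1, hlt'⟩, p.2), ?_, rfl⟩
    rw [Finset.mem_filter, mem_trm]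
    exact ⟨hp, by simpa using hv2⟩

theorem bal_okl (A : Machine) (x : List Bool) {l : List (ℕ × Bool)} (hl : Gd (A.m x) l)
    (K t : ℕ) (h : ℕ → ℕ) (r : Bool) :
    bal K t h (trm (A.m x) l, r) = okl A x K t h l := by
  rw [Bool.eq_iff_iff]
  unfold bal okl
  rw [decide_eq_true_iff, List.all_eq_true]
  constructor
  · intro hb j hj
    rw [List.mem_range] at hj
    rw [decide_eq_true_iff, ← part_card A x hl h j]
    exact hb j hj
  · intro hb j hj
    have h1 := hb j (List.mem_range.2 hj)
    rw [decide_eq_true_iff, ← part_card A x hl h j] at h1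
    exact h1

/-- The decision list of a list of literals with labels. -/
noncomputable def dls (m : ℕ) (l : List (List (ℕ × Bool) × Bool)) : DL (Fin m) :=
  (l.filter fun e => decide (Gd m e.1)).map fun e => (trm m e.1, e.2)

theorem ev_dls (A : Machine) (x : List Bool) (b : Fin (A.m x) → Bool) (h : ℕ → ℕ) (K t : ℕ)
    (l : List (List (ℕ × Bool) × Bool)) :
    ev ((dls (A.m x) l).filter (bal K t h)) b = (evl A x K t h (cf b) l).getD false := by
  induction l with
  | nil => simp [dls, ev, evl]
  | cons e l ih =>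
    by_cases hg : Gd (A.m x) e.1
    · have hd : dls (A.m x) (e :: l) = (trm (A.m x) e.1, e.2) :: dls (A.m x) l := by
        simp [dls, hg]
      rw [hd, evl]
      by_cases ho : okl A x K t h e.1 = true
      · have hb : bal K t h (trm (A.m x) e.1, e.2) = true := by
          rw [bal_okl A x hg]; exact ho
        rw [List.filter_cons_of_pos hb, ev]
        by_cases hs : Tru (cf b) e.1
        · rw [if_pos ((sat_trm hg b).2 hs), if_pos ⟨hs, ho⟩]; rfl
        · rw [if_neg (fun hh => hs ((sat_trm hg b).1 hh)), if_neg (fun hh => hs hh.1)]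
          exact ih
      · have hb : ¬ bal K t h (trm (A.m x) e.1, e.2) = true := by
          rw [bal_okl A x hg]; exact ho
        rw [List.filter_cons_of_neg hb, if_neg (fun hh => ho hh.2)]
        exact ih
    · have hd : dls (A.m x) (e :: l) = dls (A.m x) l := by
        simp [dls, hg]
      rw [hd, evl, if_neg (fun hh => hg ⟨b, hh.1⟩)]
      exact ih

/-- **CVT.** -/
theorem cvt : CvtStmt := by
  intro A x w l hl
  refine ⟨dls (A.m x) l, ?_, fun b h K t => ev_dls A x b h K t l⟩
  intro e he
  unfold dls at he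
  rw [List.mem_map] at he
  obtain ⟨e', he', rfl⟩ := he
  exact (card_trm e'.1).trans (hl e' (List.mem_of_mem_filter he'))

end Pool.Agent.Helper81.AO
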